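import Pool.Agent.Lib.MP_361a6f_ag.FL.TT.Defs
import Pool.Agent.Lib.MP_361a6f_ag.FL.K0.Geo
import Pool.Agent.Lib.MP_361a6f_ag.FL.PT0.Norm

/-!
# A basis of eigenvectors of an endomorphism with different eigenvalues

`F` is any endomorphism of `X'` with `F^* ξ' = q ξ'` and with `2 g` different eigenvalues on
`H^1(X')`. There is a symplectic basis of eigenvectors, the eigenvalues have the absolute value `√q`,
and the eigenvalues of dual eigenvectors are complex conjugates. Every diagonal matrix `z` with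
`z (τ i) = conj (z i)` is a real polynomial in the matrix of `F^*`.
-/

open CategoryTheory AlgebraicGeometry MonoidalCategory CartesianMonoidalCategory

universe u v w w' u'

set_option autoImplicit false
set_option linter.unusedSectionVars false

namespace Pool.Agent.Lib.MP_361a6f_ag.FL.TT

open Pool.Agent.Lib.MP_361a6f_ag.H3 Pool.Agent.Lib.MP_361a6f_ag.SQ
  Pool.Agent.Lib.MP_361a6f_ag.PP Pool.Agent.Lib.MP_361a6f_ag.FL.E

/-- a polynomial with real coefficients -/
theorem real_poly {I : Type} [Fintype I] {a : I → ℂ} (ha : Function.Injective a) {τ : I → I}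
    (haτ : ∀ i, a (τ i) = (starRingEnd ℂ) (a i)) {z : I → ℂ}
    (hz : ∀ i, z (τ i) = (starRingEnd ℂ) (z i)) :
    ∃ p : Polynomial ℝ, p.degree < Fintype.card I ∧
      ∀ i, Polynomial.eval₂ (algebraMap ℝ ℂ) (a i) p = z i := by
  classical
  have hinj : Set.InjOn a (Finset.univ : Finset I) := fun i _ j _ h => ha h
  set P : Polynomial ℂ := Lagrange.interpolate Finset.univ a z with hP
  have hPdeg : P.degree < Fintype.card I := by
    have h1 := Lagrange.degree_interpolate_lt (s := Finset.univ) (v := a) z hinj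
    rwa [Finset.card_univ] at h1
  have hPe : ∀ i, P.eval (a i) = z i := fun i =>
    Lagrange.eval_interpolate_at_node z hinj (Finset.mem_univ i)
  -- the conjugate polynomial
  set P' : Polynomial ℂ := P.map (starRingEnd ℂ) with hP'
  have hP'e : ∀ i, P'.eval (a i) = z i := by
    intro i
    have h1 : a i = (starRingEnd ℂ) (a (τ i)) := by rw [haτ, Complex.conj_conj]
    have h2 : P'.eval (a i) = (starRingEnd ℂ) (P.eval (a (τ i))) := by
      rw [h1, hP', Polynomial.eval_map, Polynomial.eval₂_hom]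
    rw [h2, hPe, hz, Complex.conj_conj]
  have hP'deg : P'.degree < Fintype.card I := by
    refine lt_of_le_of_lt ?_ hPdeg
    exact Polynomial.degree_map_le
  have hPP : P' = P := by
    have h1 := Lagrange.eq_interpolate_of_eval_eq (s := Finset.univ) (v := a) (f := P') z hinj
      (by rwa [Finset.card_univ]) (fun i _ => hP'e i)
    rw [h1]
  -- real coefficients
  have hc : ∀ n, ((P.coeff n).re : ℂ) = P.coeff n := by
    intro n
    have h1 : (starRingEnd ℂ) (P.coeff n) = P.coeff n := by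
      conv_rhs => rw [← hPP, hP', Polynomial.coeff_map]
    exact Complex.conj_eq_iff_re.1 h1
  let p : Polynomial ℝ := ∑ n ∈ Finset.range (P.natDegree + 1),
    Polynomial.monomial n (P.coeff n).re
  have hpP : p.map (algebraMap ℝ ℂ) = P := by
    show (∑ n ∈ Finset.range (P.natDegree + 1), Polynomial.monomial n (P.coeff n).re).map
      (algebraMap ℝ ℂ) = P
    rw [Polynomial.map_sum]
    conv_rhs => rw [P.as_sum_range]
    refine Finset.sum_congr rfl fun n _ => ?_
    rw [Polynomial.map_monomial]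
    congr 1
    exact hc n
  refine ⟨p, ?_, fun i => ?_⟩
  · rw [← Polynomial.degree_map (p := p) (algebraMap ℝ ℂ), hpP]
    exact hPdeg
  · rw [← Polynomial.eval_map, hpP, hPe]

variable {k : Type u} [Field k] {W : CohomologyData.{u, 0, w} k ℂ} {k' : Type u'} [Field k']
  {W' : CohomologyData.{u', 0, w'} k' ℂ} {𝒱 : VarietyClass k} {𝒱' : VarietyClass k'}

variable (H : Host W 𝒱 1) {X' : Sch k'} {ξ' : W'.coh X'} (S : Spc W W' H.X X' H.ξ ξ')
  (hW' : IsWeilCohomology W' 𝒱') (hX' : 𝒱'.mem X' (H.n 0))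
  (F : X' ⟶ X') {q : ℕ} (hq : 0 < q)
    (hc : ∀ x ∈ W.gr (H.X 0) 0, ∃ c : ℂ, x = c • (1 : W.coh (H.X 0)))
    (hp : PositiveDivisor W (H.X 0) (H.n 0) (H.ξ 0))
    (hF : W'.pull F ξ' = (((q : ℚ) : ℂ)) • ξ')
    (hM : EQ.Effective W' X' (H.n 0) ξ') (hA : AbelianType W' X' (H.n 0))
    (hS : EQ.Distinct W' (H.n 0) F)

include H S hW' hX' hq hc hp hF hM hA hS in
/-- **A basis of eigenvectors.** `FM` is the matrix of `F^* / √q`. -/
theorem basis : ∃ (M Y : Matrix (Sub (host2 H S hW' hX').D (0, 1))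
      (Sub (host2 H S hW' hX').D (0, 1)) ℂ) (m : Sub (host2 H S hW' hX').D (0, 1) → ℂ),
    M = FM H S hW' hX' F q ∧ IsG (subD (host2 H S hW' hX').D (0, 1)) Y ∧
      M * Y = Y * Matrix.diagonal m ∧ Function.Injective m ∧ (∀ i, ‖m i‖ = 1) ∧
      ∀ i, m ((subD (host2 H S hW' hX').D (0, 1)).τ i) = (starRingEnd ℂ) (m i) := by
  -- the eigenvalues
  obtain ⟨a, ha, h⟩ := hS
  choose x hx hx0 hFx using h
  have h0 : ∀ x ∈ W'.gr X' 0, ∃ c : ℂ, x = c • (1 : W'.coh X') :=
    S.conn H.hW hW' (H.mem 0) hX' hc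
  have hqc : (((q : ℚ) : ℂ)) = (q : ℂ) := by norm_cast
  have hn : ∀ i, ‖a i‖ ^ 2 = q := PT0.norm_sq hW' hX' h0 (S.posd hp) hM hq (by
    rw [← hqc]
    exact hF) ha hx hx0 hFx
  have hsym := symH H S hW' hX' hc hp hF
  have hsq : ‖E.sq q‖ ^ 2 = (q : ℝ) := by
    rw [← norm_pow, sq_sq]
    simp
  have hcard : Fintype.card (Sub (host2 H S hW' hX').D (0, 1)) = 2 * H.n 0 :=
    Hst.card_two (host2 H S hW' hX') 0 hA
  let e : Sub (host2 H S hW' hX').D (0, 1) ≃ Fin (2 * H.n 0) := Fintype.equivFinOfCardEq hcard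
  have hs := sq_ne hq
  let l : Sub (host2 H S hW' hX').D (0, 1) → ℂ := fun i => a (e i) / E.sq q
  have hl : Function.Injective l := fun i j hij => by
    have h2 : a (e i) / E.sq q = a (e j) / E.sq q := hij
    exact e.injective (ha ((div_left_inj' hs).1 h2))
  have hl1 : ∀ i, ‖l i‖ = 1 := fun i => by
    show ‖a (e i) / E.sq q‖ = 1
    rw [norm_div]
    have h2 : ‖a (e i)‖ = ‖E.sq q‖ := by
      rw [← sq_eq_sq₀ (norm_nonneg _) (norm_nonneg _), hsq]
      exact hn (e i)
    rw [h2, div_self (norm_ne_zero_iff.2 hs)]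
  obtain ⟨Y, π, hY, hFY, hlπ⟩ := exists_basis (subD (host2 H S hW' hX').D (0, 1))
    (fun i => by
      show (host2 H S hW' hX').D.odd ((host2 H S hW' hX').D.typ i.1)
      rw [i.2]
      exact Hst.odd_one (host2 H S hW' hX') 0) (fun i j => i.2.trans j.2.symm)
    (FM H S hW' hX' F q) (gam_one (host2 H S hW' hX') hs (sq_sq q) hsym (S.posd hp)) l hl
    (fun i => by
      let y : W'.coh ((host2 H S hW' hX').X 0) := x (e i)
      have hy1 : y ∈ W'.gr ((host2 H S hW' hX').X 0) 1 := hx (e i)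
      have h3 : vec1 (host2 H S hW' hX') (crd1 (host2 H S hW' hX') y) = y :=
        vec1_crd1 (host2 H S hW' hX') hy1
      refine ⟨crd1 (host2 H S hW' hX') y, ?_, ?_⟩
      · intro h2
        apply hx0 (e i)
        rw [h2, map_zero] at h3
        exact h3.symm
      · have h4 := frob_vec1 (host2 H S hW' hX') hs hsym (FrH H S hW' hX' F (.leaf 0)) rfl
          (crd1 (host2 H S hW' hX') y)
        have h5 : FrH H S hW' hX' F (.leaf 0) y = a (e i) • y := hFx (e i)
        have h6 : FrH H S hW' hX' F (.leaf 0) (vec1 (host2 H S hW' hX')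
            (crd1 (host2 H S hW' hX') y)) = a (e i) • y :=
          (congrArg (fun z => FrH H S hW' hX' F (.leaf 0) z) h3).trans h5
        have h7 := congrArg (crd1 (host2 H S hW' hX')) (h6.symm.trans h4)
        have h8 : crd1 (host2 H S hW' hX') (a (e i) • y)
            = a (e i) • crd1 (host2 H S hW' hX') y := map_smul _ _ _
        rw [crd1_vec1, h8, Matrix.smul_mulVec] at h7
        show _ = (a (e i) / E.sq q) • _
        rw [div_eq_inv_mul, mul_smul, h7, smul_smul, inv_mul_cancel₀ hs, one_smul]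
        rfl)
  refine ⟨FM H S hW' hX' F q, Y, l ∘ π, rfl, hY, hFY, hl.comp π.injective, fun i => hl1 _, fun i => ?_⟩
  have h1 : l (π ((subD (host2 H S hW' hX').D (0, 1)).τ i)) * l (π i) = 1 := hlπ i
  have h2 : (starRingEnd ℂ) (l (π i)) * l (π i) = 1 := by
    rw [mul_comm, Complex.mul_conj, Complex.normSq_eq_norm_sq, hl1]
    norm_num
  have h3 : l (π i) ≠ 0 := fun h => by
    rw [h, mul_zero] at h2
    exact zero_ne_one h2
  exact mul_right_cancel₀ h3 (h1.trans h2.symm)

end Pool.Agent.Lib.MP_361a6f_ag.FL.TT
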