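import Pool.Agent.Lib.MP_361a6f_ag.FL.E.StatE

/-!
# Tate's theorem for an endomorphism
-/

open CategoryTheory AlgebraicGeometry MonoidalCategory CartesianMonoidalCategory

universe v w'

namespace Pool.Agent.Lib.MP_361a6f_ag.FL.EQ

open Pool.Agent.Lib.MP_361a6f_ag.H3 Pool.Agent.Lib.MP_361a6f_ag.SQ

variable {k' : Type v} [Field k']

/-- `H^1(X')` is spanned by eigenvectors of `F^*`, and every linear map of `H^1(X')` that commutes
with `F^*` is a complex linear combination of maps `f^*`, `f : X' → X'`. (For an abelian variety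
over a finite field such that all endomorphisms are defined over this field, and its Frobenius
endomorphism `F`, this is Tate's theorem. It is clear if `F^*` has `2 n` different eigenvalues on
`H^1(X')`, `n = dim X'`: then `f = F^i`.) -/
def Tate (W' : CohomologyData.{v, 0, w'} k' ℂ) {X' : Sch k'} (F : Sch.Mor X' X') : Prop :=
  (∀ x, W'.Deg X' 1 x →
      x ∈ Submodule.span ℂ {y | W'.Deg X' 1 y ∧ ∃ a : ℂ, W'.pb F y = W'.scal a y}) ∧
    ∀ φ : W'.coh X' → W'.coh X', (∀ x y, φ (x + y) = φ x + φ y) →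
      (∀ (c : ℂ) x, φ (W'.scal c x) = W'.scal c (φ x)) →
      (∀ x, W'.Deg X' 1 x → W'.Deg X' 1 (φ x)) →
      (∀ x, W'.Deg X' 1 x → φ (W'.pb F x) = W'.pb F (φ x)) →
      ∃ (r : ℕ) (c : Fin r → ℂ) (f : Fin r → Sch.Mor X' X'),
        ∀ x, W'.Deg X' 1 x → φ x = ∑ i, W'.scal (c i) (W'.pb (f i) x)

/-- `F^*` has `2 n` different eigenvalues on `H^1(X')`. -/
def Distinct (W' : CohomologyData.{v, 0, w'} k' ℂ) {X' : Sch k'} (n : ℕ) (F : Sch.Mor X' X') :
    Prop :=
  ∃ a : Fin (2 * n) → ℂ, Function.Injective a ∧ ∀ i,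
    ∃ x, W'.Deg X' 1 x ∧ x ≠ 0 ∧ W'.pb F x = W'.scal (a i) x

end Pool.Agent.Lib.MP_361a6f_ag.FL.EQ
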