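import Pool.Agent.Lib.MP_361a6f_ag.FL.E.StatE
import Pool.Agent.Lib.MP_361a6f_ag.FL.P.EvP

/-!
# The commutant of Frobenius

If `H^1(X)` is spanned by eigenvectors of `F^*`, and if every linear map that commutes with `F^*`
on `H^1(X)` is a combination of pull-backs `f^*`, then a linear map that commutes with all
algebraic correspondences is a polynomial in `F^*` on `H^1(X)`.
-/

open CategoryTheory AlgebraicGeometry MonoidalCategory CartesianMonoidalCategory

universe u v w w' u'

set_option autoImplicit false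
set_option linter.unusedSectionVars false

namespace Pool.Agent.Lib.MP_361a6f_ag.FL.TT

open Pool.Agent.Lib.MP_361a6f_ag.H3 Pool.Agent.Lib.MP_361a6f_ag.SQ
  Pool.Agent.Lib.MP_361a6f_ag.PP

section

variable {V : Type w} [AddCommGroup V] [Module ℂ V] [Module.Finite ℂ V]

/-- Linear algebra: `T` is diagonalisable on `U`; if `φ` commutes on `U` with all maps that commute
with `T` on `U`, then it is a polynomial in `T` on `U`. -/
theorem poly_of_bicomm {U : Submodule ℂ V} (T φ : V →ₗ[ℂ] V)
    (hs : U ≤ Submodule.span ℂ {y : V | y ∈ U ∧ ∃ a : ℂ, T y = a • y})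
    (hc : ∀ ψ : V →ₗ[ℂ] V, (∀ x ∈ U, ψ x ∈ U) → (∀ x ∈ U, ψ (T x) = T (ψ x)) →
      ∀ x ∈ U, φ (ψ x) = ψ (φ x)) :
    ∃ p : Polynomial ℂ, ∀ x ∈ U, φ x = Polynomial.aeval (T : Module.End ℂ V) p x := by
  classical
  obtain ⟨b, hb, hsp, hli⟩ := exists_linearIndependent ℂ {y : V | y ∈ U ∧ ∃ a : ℂ, T y = a • y}
  have hfin : Finite b := hli.setFinite
  have hfin' : Fintype b := Fintype.ofFinite b
  choose hbU a ha using fun i : b => hb i.2
  -- the coordinates
  obtain ⟨g, hg⟩ := LinearMap.exists_leftInverse_of_injective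
    (Finsupp.linearCombination ℂ (fun i : b => (i : V))) (LinearMap.ker_eq_bot.2 hli)
  have hg' : ∀ i : b, g (i : V) = Finsupp.single i 1 := by
    intro i
    have h1 := LinearMap.congr_fun hg (Finsupp.single i 1)
    rwa [LinearMap.comp_apply, Finsupp.linearCombination_single, one_smul] at h1
  have hU : ∀ x ∈ U, x ∈ Submodule.span ℂ (Set.range fun i : b => (i : V)) := by
    intro x hx
    have h1 := hs hx
    rw [← hsp] at h1
    rwa [Subtype.range_coe]
  -- to be checked on the eigenvectors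
  have key : ∀ A B : V →ₗ[ℂ] V, (∀ i : b, A (i : V) = B (i : V)) → ∀ x ∈ U, A x = B x := by
    intro A B h x hx
    have h1 := hU x hx
    clear hx
    induction h1 using Submodule.span_induction with
    | mem x h1 =>
      obtain ⟨i, rfl⟩ := h1
      exact h i
    | zero => rw [map_zero, map_zero]
    | add x y _ _ hx hy => rw [map_add, map_add, hx, hy]
    | smul c x _ hx => rw [map_smul, map_smul, hx]
  -- the maps of rank one
  have h1 : ∀ i j : b, a i = a j → φ (j : V) = (g (φ (i : V)) i) • (j : V) := by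
    intro i j hij
    let ψ : V →ₗ[ℂ] V := ((Finsupp.lapply i).comp g).smulRight (j : V)
    have hψ : ∀ y, ψ y = g y i • (j : V) := fun y => rfl
    have h2 := hc ψ (fun x _ => by
      rw [hψ]
      exact U.smul_mem _ (hbU j)) (key (ψ.comp T) (T.comp ψ) fun l => by
        rw [LinearMap.comp_apply, LinearMap.comp_apply, ha l, map_smul, hψ, hg', map_smul, ha j]
        by_cases h3 : l = i
        · subst h3
          rw [Finsupp.single_eq_same, one_smul, one_smul, hij]
        · rw [Finsupp.single_eq_of_ne (Ne.symm h3), zero_smul, zero_smul, smul_zero]) (i : V) (hbU i)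
    rw [hψ, hψ, hg', Finsupp.single_eq_same, one_smul] at h2
    exact h2
  have hne : ∀ j : b, (j : V) ≠ 0 := fun j => hli.ne_zero j
  have h2 : ∀ i j : b, a i = a j → g (φ (i : V)) i = g (φ (j : V)) j := by
    intro i j hij
    have h3 := (h1 i j hij).symm.trans (h1 j j rfl)
    exact smul_left_injective ℂ (hne j) h3
  -- interpolation
  let c : ℂ → ℂ := fun z => if h : ∃ i, a i = z then g (φ ((h.choose : b) : V)) h.choose else 0
  have hcz : ∀ i : b, c (a i) = g (φ (i : V)) i := by
    intro i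
    have h3 : ∃ j, a j = a i := ⟨i, rfl⟩
    show (if h : ∃ j, a j = a i then g (φ ((h.choose : b) : V)) h.choose else 0) = _
    rw [dif_pos h3]
    exact h2 _ _ h3.choose_spec
  let p : Polynomial ℂ := Lagrange.interpolate (Finset.univ.image a) id c
  have hp : ∀ i : b, p.eval (a i) = c (a i) := by
    intro i
    exact Lagrange.eval_interpolate_at_node c (s := Finset.univ.image a) (v := id)
      (Set.injOn_id _) (Finset.mem_image_of_mem a (Finset.mem_univ i))
  refine ⟨p, key φ (Polynomial.aeval (T : Module.End ℂ V) p) fun i => ?_⟩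
  have h3 : Polynomial.aeval (T : Module.End ℂ V) p (i : V) = p.eval (a i) • (i : V) :=
    Module.End.aeval_apply_of_hasEigenvector (f := T) (p := p) (μ := a i) (x := (i : V)) (by
      rw [Module.End.hasEigenvector_iff, Module.End.mem_eigenspace_iff]
      exact ⟨ha i, hne i⟩)
  rw [h3, hp, hcz]
  exact h1 i i rfl

end

section

variable {k : Type u} [Field k] {W : CohomologyData.{u, 0, w} k ℂ} {𝒱 : VarietyClass k}
  (hW : IsWeilCohomology W 𝒱) {X : Sch k} {n : ℕ} (hX : 𝒱.mem X n) {F : Sch.Mor X X}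

include hW hX in
/-- **TT1.** The property `EQ.Commutant` follows from Tate's theorem with endomorphisms. -/
theorem commutant
    (hs : ∀ x, W.Deg X 1 x →
      x ∈ Submodule.span ℂ {y : W.coh X | W.Deg X 1 y ∧ ∃ a : ℂ, W.pull F y = a • y})
    (hT : ∀ ψ : W.coh X →ₗ[ℂ] W.coh X, (∀ x, W.Deg X 1 x → W.Deg X 1 (ψ x)) →
      (∀ x, W.Deg X 1 x → ψ (W.pull F x) = W.pull F (ψ x)) →
      ∃ (r : ℕ) (c : Fin r → ℂ) (f : Fin r → Sch.Mor X X),
        ∀ x, W.Deg X 1 x → ψ x = ∑ i, c i • W.pull (f i) x) :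
    EQ.Commutant W n F := by
  intro φ hφ hcom
  have hfin : Module.Finite ℂ (W.coh X) := hW.finite hX
  have hf : ∀ (f : Sch.Mor X X) (y : W.coh X), W.Deg X 1 y → φ (W.pull f y) = W.pull f (φ y) := by
    intro f y hy
    obtain ⟨γ, hγ, hγ'⟩ := EvP.pull hW hX f
    have h1 := hcom γ hγ y hy
    have e : ∀ z, EQ.act W γ z = W.pull f z := hγ'
    rwa [e, e] at h1
  exact poly_of_bicomm (U := W.gr X 1) (W.pull F).toLinearMap φ hs (by
    intro ψ hψ hψF x hx
    obtain ⟨r, c, f, h⟩ := hT ψ hψ hψF
    rw [h x hx, h (φ x) (hφ x hx), map_sum]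
    refine Finset.sum_congr rfl fun i _ => ?_
    rw [map_smul, hf (f i) x hx])

end

end Pool.Agent.Lib.MP_361a6f_ag.FL.TT
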