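import Pool.Agent.Lib.MP_361a6f_ag.FL.TT.Defs
import Pool.Agent.Lib.MP_361a6f_ag.FL.TT.Comm

/-!
# Frobenius with different eigenvalues

If `F^*` has `2 n` different eigenvalues on `H^1(X)` and `dim H^1(X) = 2 n`, then `EQ.Tate` holds.
-/

open CategoryTheory AlgebraicGeometry MonoidalCategory CartesianMonoidalCategory

universe u v w w' u'

set_option autoImplicit false
set_option linter.unusedSectionVars false

namespace Pool.Agent.Lib.MP_361a6f_ag.FL.TT

open Pool.Agent.Lib.MP_361a6f_ag.H3 Pool.Agent.Lib.MP_361a6f_ag.SQ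
  Pool.Agent.Lib.MP_361a6f_ag.PP

variable {k : Type u} [Field k] {W : CohomologyData.{u, 0, w} k ℂ} {𝒱 : VarietyClass k}
  (hW : IsWeilCohomology W 𝒱) {X : Sch k} {n : ℕ} (hX : 𝒱.mem X n) {F : Sch.Mor X X}
  (hr : Module.finrank ℂ (W.gr X 1) = 2 * n)

include hW hX hr

/-- `EQ.Tate` holds if `F^*` has `2 n` different eigenvalues on `H^1(X)`. -/
theorem tate_of_distinct (hS : EQ.Distinct W n F) : EQ.Tate W F := by
  obtain ⟨a, ha, h⟩ := hS
  choose x hx hx0 hFx using h
  set T : Module.End ℂ (W.coh X) := (W.pull F).toLinearMap with hT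
  have hfin : Module.Finite ℂ (W.coh X) := hW.finite hX
  have hTx : ∀ i, T (x i) = a i • x i := hFx
  -- the eigenvectors form a basis
  have hli : LinearIndependent ℂ x := by
    refine Module.End.eigenvectors_linearIndependent' T a ha x fun i => ?_
    rw [Module.End.hasEigenvector_iff, Module.End.mem_eigenspace_iff]
    exact ⟨hTx i, hx0 i⟩
  have hspan : W.gr X 1 ≤ Submodule.span ℂ (Set.range x) := by
    have h1 : Submodule.span ℂ (Set.range x) ≤ W.gr X 1 := by
      rw [Submodule.span_le]
      rintro _ ⟨i, rfl⟩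
      exact hx i
    refine (Submodule.eq_of_le_of_finrank_eq h1 ?_).ge
    rw [finrank_span_eq_card hli, Fintype.card_fin, hr]
  refine ⟨fun y hy => ?_, ?_⟩
  · refine Submodule.span_mono ?_ (hspan hy)
    rintro _ ⟨i, rfl⟩
    exact ⟨hx i, a i, hFx i⟩
  intro φ0 hadd hsmul hφ hcomm
  let φ : W.coh X →ₗ[ℂ] W.coh X := { toFun := φ0, map_add' := hadd, map_smul' := hsmul }
  -- the images of the eigenvectors
  have hφx : ∀ i, ∃ c : ℂ, φ (x i) = c • x i := by
    intro i
    have h1 : φ (x i) ∈ Submodule.span ℂ (Set.range x) := hspan (hφ _ (hx i))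
    obtain ⟨c, hc⟩ := (Submodule.mem_span_range_iff_exists_fun ℂ).1 h1
    refine ⟨c i, ?_⟩
    have h2 : T (φ (x i)) = a i • φ (x i) := by
      have h3 : T (φ (x i)) = φ (T (x i)) := (hcomm _ (hx i)).symm
      rw [h3, hTx, map_smul]
    rw [← hc, map_sum, Finset.smul_sum] at h2
    have h3 : ∑ j, ((c j) * (a j - a i)) • x j = 0 := by
      have h4 : ∀ j, ((c j) * (a j - a i)) • x j = T (c j • x j) - a i • c j • x j := by
        intro j
        rw [map_smul, hTx, smul_smul, smul_smul, ← sub_smul]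
        congr 1
        ring
      rw [Finset.sum_congr rfl fun j _ => h4 j, Finset.sum_sub_distrib, h2, sub_self]
    have h5 := Fintype.linearIndependent_iff.1 hli _ h3
    rw [← hc, Finset.sum_eq_single i]
    · intro j _ hj
      have h6 : c j = 0 := (mul_eq_zero.1 (h5 j)).resolve_right
        (sub_ne_zero.2 fun h7 => hj (ha h7))
      rw [h6, zero_smul]
    · intro h6
      exact absurd (Finset.mem_univ _) h6
  choose c hc using hφx
  -- interpolation
  let p : Polynomial ℂ := Lagrange.interpolate Finset.univ a c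
  have hpow : ∀ (p : Polynomial ℂ) (i : Fin (2 * n)),
      Polynomial.aeval T p (x i) = p.eval (a i) • x i := by
    intro p i
    exact Module.End.aeval_apply_of_hasEigenvector (f := T) (p := p) (μ := a i) (x := x i) (by
      rw [Module.End.hasEigenvector_iff, Module.End.mem_eigenspace_iff]
      exact ⟨hTx i, hx0 i⟩)
  have hp : ∀ y, W.Deg X 1 y → φ y = Polynomial.aeval T p y := by
    intro y hy
    obtain ⟨b, hb⟩ := (Submodule.mem_span_range_iff_exists_fun ℂ).1 (hspan hy)
    rw [← hb, map_sum, map_sum]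
    refine Finset.sum_congr rfl fun i _ => ?_
    rw [map_smul, map_smul, hc, hpow, Lagrange.eval_interpolate_at_node _
      (fun i _ j _ h => ha h) (Finset.mem_univ i)]
  -- the powers of Frobenius
  choose G hG using fun j : ℕ => EvP.pow hW hX F j
  refine ⟨p.natDegree + 1, fun i => p.coeff i, fun i => G i, fun y hy => ?_⟩
  show φ y = _
  rw [hp y hy, Polynomial.aeval_eq_sum_range, LinearMap.sum_apply, Finset.sum_range]
  refine Finset.sum_congr rfl fun i _ => ?_
  rw [LinearMap.smul_apply]
  show p.coeff i • (T ^ (i : ℕ)) y = p.coeff i • W.pull (G i) y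
  rw [← hG]
  rfl

omit hr in
/-- `EQ.Tate` implies `EQ.Commutant`. -/
theorem commutant_of_tate (hT : EQ.Tate W F) : EQ.Commutant W n F :=
  commutant hW hX (fun x hx => hT.1 x hx) fun ψ hψ hψF =>
    hT.2 ψ (fun x y => map_add ψ x y) (fun c x => map_smul ψ c x) hψ hψF

end Pool.Agent.Lib.MP_361a6f_ag.FL.TT
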