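import Pool.Agent.Lib.MP_361a6f_ag.FL.TT.Geo
import Pool.Agent.Lib.MP_361a6f_ag.FL.TT.Dist
import Pool.Agent.Lib.MP_361a6f_ag.FL.PT0.InputsP

/-!
# The three facts on the reduction from Tate's theorem
-/

open CategoryTheory AlgebraicGeometry MonoidalCategory CartesianMonoidalCategory

universe u v w w' u'

set_option autoImplicit false
set_option linter.unusedSectionVars false

namespace Pool.Agent.Lib.MP_361a6f_ag.FL.TT

open Pool.Agent.Lib.MP_361a6f_ag.H3 Pool.Agent.Lib.MP_361a6f_ag.SQ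
  Pool.Agent.Lib.MP_361a6f_ag.PP Pool.Agent.Lib.MP_361a6f_ag.FL.E

/-! ### Over a host -/

section pieces

variable {k : Type u} [Field k] {W : CohomologyData.{u, 0, w} k ℂ} {k' : Type u'} [Field k']
  {W' : CohomologyData.{u', 0, w'} k' ℂ} {𝒱 : VarietyClass k} {𝒱' : VarietyClass k'}

variable (H : Host W 𝒱 1) {X' : Sch k'} {ξ' : W'.coh X'} (S : Spc W W' H.X X' H.ξ ξ')
  (hW' : IsWeilCohomology W' 𝒱') (hX' : 𝒱'.mem X' (H.n 0))
  (F : X' ⟶ X') {q : ℕ} (hq : 0 < q)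
    (hc : ∀ x ∈ W.gr (H.X 0) 0, ∃ c : ℂ, x = c • (1 : W.coh (H.X 0)))
    (hp : PositiveDivisor W (H.X 0) (H.n 0) (H.ξ 0))
    (hF : W'.pull F ξ' = (((q : ℚ) : ℂ)) • ξ')
    (hfix : ∀ u, At1 (host2 H S hW' hX') 2 u → gT (FM H S hW' hX' F q) u = u)
    (hT : EQ.Tate W' F) (hM : EQ.Effective W' X' (H.n 0) ξ') (hA : AbelianType W' X' (H.n 0))

include H S hW' hX' hq hc hp hF hfix hT hM hA in
/-- **The three facts**, from `F^* ξ' = q ξ'` and the invariance of the members of length `2`. -/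
theorem pieces : EQ.Commutant W' (H.n 0) F ∧
    HodgeCodim W' (X'.prod X') (H.n 0 + H.n 0)
      (W'.pb (X'.pr₁ X') ξ' + W'.pb (X'.pr₂ X') ξ') 1 ∧ EQ.ByEndo W' X' (H.n 0) := by
  have h0 : ∀ x ∈ W'.gr X' 0, ∃ c : ℂ, x = c • (1 : W'.coh X') :=
    S.conn H.hW hW' (H.mem 0) hX' hc
  obtain ⟨Lw⟩ := PT0.law_of_group hW' hX' h0 hM.group
  refine ⟨commutant_of_tate hW' hX' hT,
    index H S hW' hX' F hq hc hp hF hfix hT h0 hM hA Lw, fun z hz => ?_⟩
  obtain ⟨N, f, hN, hf⟩ := endo H S hW' hX' F hq hc hp hF hfix hT Lw z hz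
  exact ⟨N, f, hN, fun x hx => hf x hx⟩

end pieces

/-! ### Over the data of the final texts -/

variable {k : Type u} [Field k] {k' : Type v} [Field k'] {W : CohomologyData.{u, 0, w} k ℂ}
  {𝒱 : VarietyClass k} {W' : CohomologyData.{v, 0, w'} k' ℂ} {𝒱' : VarietyClass k'}
  (hW : IsWeilCohomology W 𝒱) (hW' : IsWeilCohomology W' 𝒱') {D : EQ.Data W W'}

include hW hW' in
/-- **The three facts** on `X'` from Tate's theorem and the axioms on effective cycles. The condition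
on the quotients of the eigenvalues of `F^*` is not used. -/
theorem facts (mem : 𝒱.mem D.X D.g) (conn : ∀ x, W.Deg D.X 0 x → ∃ c, x = W.scal c 1)
    (unital : EQ.Unital D.X) (div : PositiveDivisor W D.X D.g D.ξ) (mem' : 𝒱'.mem D.X' D.g)
    (spec : EQ.IsSpec W D.X W' D.X' D.s) (pos : 0 < D.q)
    (frob : ∀ P l z, W'.IsAlg (EQ.pw D.X' P) l z →
      W'.pb (EQ.pwMap D.F P) z = W'.scal ((D.q : ℂ) ^ l) z)
    (hM : EQ.Effective W' D.X' D.g (D.s (.leaf 0) D.ξ)) (hT : EQ.Tate W' D.F) :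
    EQ.Commutant W' D.g D.F ∧
      HodgeCodim W' (D.X'.prod D.X') (D.g + D.g) (W'.pb (D.X'.pr₁ D.X') (D.s (.leaf 0) D.ξ)
        + W'.pb (D.X'.pr₂ D.X') (D.s (.leaf 0) D.ξ)) 1 ∧ EQ.ByEndo W' D.X' D.g := by
  have hu := FL.unital hW mem conn unital div
  obtain ⟨c⟩ := Hst.exists_core hW mem div.1 hu.1 hu.2.1
  have hA : AbelianType W D.X D.g := abelianType_of_unital hW mem conn unital div
  have hA' : AbelianType W' D.X' D.g :=
    K0.spc_abelianType (spcOf spec D.ξ) hW hW' mem mem' hA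
  have hq : (((D.q : ℚ) : ℂ)) = (D.q : ℂ) := by norm_cast
  have hξ : W'.IsAlg D.X' 1 (D.s (.leaf 0) D.ξ) := spec.alg (.leaf 0) 1 D.ξ div.1
  have hpull : W'.pull D.F (D.s (.leaf 0) D.ξ) = (((D.q : ℚ) : ℂ)) • D.s (.leaf 0) D.ξ := by
    have h1 := frob (.leaf 0) 1 (D.s (.leaf 0) D.ξ) hξ
    rw [pow_one] at h1
    rw [hq]
    exact h1
  exact pieces (c.host hW mem div.1) (spcOf spec D.ξ) hW' mem' D.F pos conn div hpull
    (fun u hu => K0.fix_at1 (c.host hW mem div.1) (spcOf spec D.ξ) hW' mem' D.F pos conn div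
      hpull (fun P l z hz => by
        rw [hq]
        exact frob P l z hz) 2 u hu) hT hM hA'

include hW hW' in
/-- `EQ.Tate` holds at a place with `2 g` different eigenvalues. -/
theorem tate_of_distinct' (mem : 𝒱.mem D.X D.g) (conn : ∀ x, W.Deg D.X 0 x → ∃ c, x = W.scal c 1)
    (unital : EQ.Unital D.X) (div : PositiveDivisor W D.X D.g D.ξ) (mem' : 𝒱'.mem D.X' D.g)
    (spec : EQ.IsSpec W D.X W' D.X' D.s) (hS : EQ.Distinct W' D.g D.F) : EQ.Tate W' D.F :=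
  tate_of_distinct hW' mem' (K0.spc_abelianType (spcOf spec D.ξ) hW hW' mem mem'
    (abelianType_of_unital hW mem conn unital div)).rank hS

section base

variable (hB : EQ.Base 𝒱 𝒱' D) (hM : EQ.Effective W' D.X' D.g (D.s (.leaf 0) D.ξ))
  (hT : EQ.Tate W' D.F)

include hW hW' hB hM hT in
/-- the second branch of `EQ.Inputs` -/
theorem inputs_of_tate : EQ.Inputs W' D.g D.q D.F (D.s (.leaf 0) D.ξ) :=
  Or.inr (facts hW hW' hB.mem hB.conn hB.unital hB.div hB.mem' hB.spec hB.pos hB.frob hM hT)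

include hW hW' hB hM hT in
theorem hyp_of_tate : EQ.Hyp 𝒱 𝒱' D :=
  PT0.hyp_of_inputs hW hW' hB (inputs_of_tate hW hW' hB hM hT)

end base

end Pool.Agent.Lib.MP_361a6f_ag.FL.TT
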