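import Pool.Agent.Lib.MP_361a6f_ag.FL.K0.Nd2
import Pool.Agent.Lib.MP_361a6f_ag.FL.K0.Endo

/-!
# Tate's theorem in coordinates

`M` is diagonalizable and lies in the group, the members of length `2` commute with `M`, and the
matrices that commute with `M` are complex combinations of members (of a certain kind `Good`). Then
`ψ` is nondegenerate on the members, every member is a rational combination of good members, and `ψ`
is positive definite on the members if it is positive semidefinite.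
-/

set_option autoImplicit false
set_option linter.unusedSectionVars false

namespace Pool.Agent.Lib.MP_361a6f_ag.FL.TT

open Pool.Agent.Lib.MP_361a6f_ag.FL.E Pool.Agent.Lib.MP_361a6f_ag.FL.E.QS

/-- A complex combination of rational vectors that is rational is a rational combination, if there
is a rational form that is nondegenerate on the rational vectors. -/
theorem rat_comb {V : Type*} [AddCommGroup V] [Module ℂ V] (B : V →ₗ[ℂ] V →ₗ[ℂ] ℂ) {A : V → Prop}
    (h0 : A 0) (hadd : ∀ a b, A a → A b → A (a + b))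
    (hq : ∀ (q : ℚ) a, A a → A ((q : ℂ) • a))
    (hrat : ∀ a b, A a → A b → ∃ q : ℚ, B a b = (q : ℂ))
    (hnd : ∀ a, A a → (∀ b, A b → B b a = 0) → a = 0)
    {ι : Type*} [Fintype ι] (v : ι → V) (hv : ∀ i, A (v i)) {w : V} (hw : A w) (c : ι → ℂ)
    (hc : w = ∑ i, c i • v i) : ∃ d : ι → ℚ, w = ∑ i, (d i : ℂ) • v i := by
  classical
  obtain ⟨φ, hφ⟩ := K0.exists_ret
  have hφq : ∀ q : ℚ, φ (q : ℂ) = q := by
    intro q
    have h : (q : ℂ) = q • (1 : ℂ) := by rw [Rat.smul_def, mul_one]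
    rw [h, map_smul, hφ, smul_eq_mul, mul_one]
  have hsum : ∀ (s : Finset ι) (f : ι → ℚ), A (∑ i ∈ s, (f i : ℂ) • v i) := by
    intro s f
    induction s using Finset.induction_on with
    | empty => simpa using h0
    | insert a s ha ih =>
      rw [Finset.sum_insert ha]
      exact hadd _ _ (hq _ _ (hv a)) ih
  let d : ι → ℚ := fun i => φ (c i)
  let w' : V := w + ∑ i, ((-(d i) : ℚ) : ℂ) • v i
  have hA' : A w' := hadd _ _ hw (hsum _ _)
  have horth : ∀ b, A b → B b w' = 0 := by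
    intro x hx
    obtain ⟨b, hb⟩ := hrat _ _ hx hw
    choose g hg using fun j => hrat _ _ hx (hv j)
    have h1 : (b : ℂ) = ∑ j, c j * (g j : ℂ) := by
      rw [← hb, hc, map_sum]
      exact Finset.sum_congr rfl fun j _ => by rw [map_smul, hg, smul_eq_mul]
    have h2 : b = ∑ j, g j * d j := by
      have h3 := congrArg φ h1
      rw [hφq, map_sum] at h3
      rw [h3]
      refine Finset.sum_congr rfl fun j _ => ?_
      have h4 : c j * (g j : ℂ) = g j • c j := by rw [Rat.smul_def, mul_comm]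
      rw [h4, map_smul, smul_eq_mul]
    show B x (w + ∑ j, ((-(d j) : ℚ) : ℂ) • v j) = 0
    rw [map_add, hb, map_sum, h2]
    push_cast
    rw [← Finset.sum_add_distrib]
    refine Finset.sum_eq_zero fun j _ => ?_
    rw [map_smul, hg, smul_eq_mul]
    ring
  have hw0 : w' = 0 := hnd _ hA' horth
  refine ⟨d, ?_⟩
  have h6 : w + ∑ i, ((-(d i) : ℚ) : ℂ) • v i = 0 := hw0
  have h7 : ∑ i, ((-(d i) : ℚ) : ℂ) • v i = -∑ i, (d i : ℂ) • v i := by
    rw [← Finset.sum_neg_distrib]
    refine Finset.sum_congr rfl fun i _ => ?_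
    rw [← neg_smul]
    congr 1
    push_cast
    rfl
  rw [h7] at h6
  exact add_neg_eq_zero.1 h6

variable {I Λ : Type} [Fintype I] [DecidableEq I] [DecidableEq Λ] {D : Dat I Λ}
  {Ct : (L : ℕ) → Ten I L → Prop}

/-- the matrix of a combination -/
theorem opM_sum {ι : Type} (s : Finset ι) (c : ι → ℂ) (v : ι → Ten I 2) :
    opM D (∑ j ∈ s, c j • v j) = ∑ j ∈ s, c j • opM D (v j) := by
  classical
  induction s using Finset.induction_on with
  | empty => rw [Finset.sum_empty, Finset.sum_empty, QS.opM_zero]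
  | insert a s ha ih => rw [Finset.sum_insert ha, Finset.sum_insert ha, QS.opM_add, ih, QS.opM_smul]

/-- The hypotheses -/
structure Co (D : Dat I Λ) (Ct : (L : ℕ) → Ten I L → Prop) (Good : Ten I 2 → Prop)
    (M : Matrix I I ℂ) : Prop where
  a1 : Alg1
  S : ASys D Ct
  hodd : ∀ i, D.odd (D.typ i)
  hM : IsG D M
  eig : ∀ c : I → ℂ, c ∈ Submodule.span ℂ {c : I → ℂ | ∃ μ : ℂ, M.mulVec c = μ • c}
  comm : ∀ u, Ct 2 u → opM D u * M = M * opM D u
  good : ∀ u, Good u → Ct 2 u
  full : ∀ x : Matrix I I ℂ, x * M = M * x → ∃ (r : ℕ) (c : Fin r → ℂ) (v : Fin r → Ten I 2),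
    (∀ i, Good (v i)) ∧ mten D x = ∑ i, c i • v i

variable {Good : Ten I 2 → Prop} {M : Matrix I I ℂ} (C : Co D Ct Good M)

include C in
/-- **`ψ` is nondegenerate** on the members -/
theorem nd {a : Ten I 2} (ha : Ct 2 a) (h : ∀ b, Ct 2 b → psiT D b a = 0) : a = 0 := by
  obtain ⟨P, μ, hP, hMP⟩ := K0.exists_eig C.eig
  have h1 : opM D a = 0 := by
    refine K0.nondeg C.hodd C.hM hP hMP (C.comm a ha) fun x hx => ?_
    obtain ⟨r, c, v, hv, e⟩ := C.full x hx
    rw [QS.mten_opM, e]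
    have h2 : Qps.psiL D 2 a (∑ i, c i • v i) = 0 := by
      rw [map_sum]
      refine Finset.sum_eq_zero fun i _ => ?_
      rw [map_smul, Qps.psiL_apply,
        Qps.psi_symm C.a1 (C.S.even 2 a ha) (C.S.even 2 _ (C.good _ (hv i))),
        h _ (C.good _ (hv i)), smul_zero]
    exact h2
  rw [← QS.mten_opM (D := D) a, h1]
  funext w
  show (0 : Matrix I I ℂ) (w 0) (D.τ (w 1)) * D.s (D.τ (w 1)) = 0
  rw [Matrix.zero_apply, zero_mul]

include C in
/-- **Every member is a rational combination of good members.** -/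
theorem rat {a : Ten I 2} (ha : Ct 2 a) : ∃ (r : ℕ) (d : Fin r → ℚ) (v : Fin r → Ten I 2),
    (∀ i, Good (v i)) ∧ a = ∑ i, (d i : ℂ) • v i := by
  obtain ⟨r, c, v, hv, e⟩ := C.full (opM D a) (C.comm a ha)
  rw [QS.mten_opM] at e
  obtain ⟨d, hd⟩ := rat_comb (Qps.psiL D 2) (A := Ct 2) (C.S.zero 2)
    (fun a b ha hb => C.S.add 2 a b ha hb) (fun q a ha => C.S.qsmul 2 q a ha)
    (fun a b ha hb => Qps.psi_rat C.S ha hb) (fun a ha h => nd C ha h) v
    (fun i => C.good _ (hv i)) ha c e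
  exact ⟨r, d, v, hv, hd⟩

include C in
/-- **`ψ` is positive** on the members if it is semidefinite -/
theorem pos (hpos : ∀ u, Ct 2 u → ∃ r : ℝ, 0 ≤ r ∧ psiT D u u = (r : ℂ)) {u : Ten I 2}
    (hu : Ct 2 u) (h0 : u ≠ 0) : ∃ r : ℝ, 0 < r ∧ psiT D u u = (r : ℂ) := by
  obtain ⟨r, hr, e⟩ := hpos u hu
  refine ⟨r, lt_of_le_of_ne hr fun h => h0 ?_, e⟩
  have h1 : psiT D u u = 0 := by rw [e, ← h, Complex.ofReal_zero]
  refine nd C hu fun b hb => ?_
  rw [Qps.psi_symm C.a1 (C.S.even 2 b hb) (C.S.even 2 u hu)]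
  exact K0.cs C.a1 C.S hpos hu h1 hb

end Pool.Agent.Lib.MP_361a6f_ag.FL.TT
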