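import Pool.Agent.Lib.MP_361a6f_ag.FL.TT.Core
import Pool.Agent.Lib.MP_361a6f_ag.FL.TT.Defs
import Pool.Agent.Lib.MP_361a6f_ag.FL.PT0.Idx

/-!
# Tate's theorem: correspondences are endomorphisms, and the Hodge index theorem
-/

open CategoryTheory AlgebraicGeometry MonoidalCategory CartesianMonoidalCategory

universe u v w w' u'

set_option autoImplicit false
set_option linter.unusedSectionVars false

namespace Pool.Agent.Lib.MP_361a6f_ag.FL.TT

open Pool.Agent.Lib.MP_361a6f_ag.H3 Pool.Agent.Lib.MP_361a6f_ag.SQ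
  Pool.Agent.Lib.MP_361a6f_ag.PP Pool.Agent.Lib.MP_361a6f_ag.FL.E

variable {k : Type u} [Field k] {W : CohomologyData.{u, 0, w} k ℂ} {k' : Type u'} [Field k']
  {W' : CohomologyData.{u', 0, w'} k' ℂ} {𝒱 : VarietyClass k} {𝒱' : VarietyClass k'}

variable (H : Host W 𝒱 1) {X' : Sch k'} {ξ' : W'.coh X'} (S : Spc W W' H.X X' H.ξ ξ')
  (hW' : IsWeilCohomology W' 𝒱') (hX' : 𝒱'.mem X' (H.n 0))
  (F : X' ⟶ X') {q : ℕ}

/-- the tensors of length `2` of the endomorphisms -/
def Good (u : Ten (Sub (host2 H S hW' hX').D (0, 1)) 2) : Prop :=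
  At1 (host2 H S hW' hX') 2 u ∧ ∃ f : X' ⟶ X', ∀ c,
    W'.pull f (vec1 (host2 H S hW' hX') c)
      = vec1 (host2 H S hW' hX') ((opM (subD (host2 H S hW' hX').D (0, 1)) u).mulVec c)

theorem good_of (f : X' ⟶ X') : ∃ u, Good H S hW' hX' u ∧ ∀ c,
    W'.pull f (vec1 (host2 H S hW' hX') c)
      = vec1 (host2 H S hW' hX') ((opM (subD (host2 H S hW' hX').D (0, 1)) u).mulVec c) := by
  obtain ⟨γ, hγ, hγ'⟩ := EvP.pull hW' hX' f
  obtain ⟨v, hv, hv'⟩ := cor_vec1 (host2 H S hW' hX') hγ
  have h : ∀ c, W'.pull f (vec1 (host2 H S hW' hX') c)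
      = vec1 (host2 H S hW' hX') ((opM (subD (host2 H S hW' hX').D (0, 1)) v).mulVec c) :=
    fun c => (hγ' _).symm.trans (hv' c)
  exact ⟨v, ⟨hv, f, h⟩, h⟩

theorem co (hq : 0 < q)
    (hc : ∀ x ∈ W.gr (H.X 0) 0, ∃ c : ℂ, x = c • (1 : W.coh (H.X 0)))
    (hp : PositiveDivisor W (H.X 0) (H.n 0) (H.ξ 0))
    (hF : W'.pull F ξ' = (((q : ℚ) : ℂ)) • ξ')
    (hfix : ∀ u, At1 (host2 H S hW' hX') 2 u → gT (FM H S hW' hX' F q) u = u)
    (hT : EQ.Tate W' F) :
    Co (subD (host2 H S hW' hX').D (0, 1)) (At1 (host2 H S hW' hX')) (Good H S hW' hX')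
      (FM H S hW' hX' F q) := by
  let V : (Sub (host2 H S hW' hX').D (0, 1) → ℂ) →ₗ[ℂ] W'.coh X' := vec1 (host2 H S hW' hX')
  let R : W'.coh X' →ₗ[ℂ] (Sub (host2 H S hW' hX').D (0, 1) → ℂ) := crd1 (host2 H S hW' hX')
  have hRV : ∀ c, R (V c) = c := fun c => crd1_vec1 (host2 H S hW' hX') c
  have hVR : ∀ y ∈ W'.gr X' 1, V (R y) = y := fun y hy => vec1_crd1 (host2 H S hW' hX') hy
  have hVgr : ∀ c, V c ∈ W'.gr X' 1 := fun c => vec1_gr (host2 H S hW' hX') c
  have hVinj : Function.Injective V := fun c d h => by rw [← hRV c, h, hRV]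
  set M : Matrix (Sub (host2 H S hW' hX').D (0, 1)) (Sub (host2 H S hW' hX').D (0, 1)) ℂ :=
    FM H S hW' hX' F q with hM
  have hsym := symH H S hW' hX' hc hp hF
  have hs := sq_ne hq
  have hfr : ∀ c, W'.pull F (V c) = V ((E.sq q • M).mulVec c) := fun c =>
    frob_vec1 (host2 H S hW' hX') hs hsym (FrH H S hW' hX' F (.leaf 0)) rfl c
  have hodd : ∀ i : Sub (host2 H S hW' hX').D (0, 1),
      (subD (host2 H S hW' hX').D (0, 1)).odd ((subD (host2 H S hW' hX').D (0, 1)).typ i) := by
    intro i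
    show (host2 H S hW' hX').D.odd ((host2 H S hW' hX').D.typ i.1)
    rw [i.2]
    exact Hst.odd_one (host2 H S hW' hX') 0
  have hG : IsG (subD (host2 H S hW' hX').D (0, 1)) M :=
    gam_one (host2 H S hW' hX') hs (sq_sq q) hsym (S.posd hp)
  exact
    { a1 := alg1
      S := aSys_sub (aSys_at (at_ (host2 H S hW' hX')))
      hodd := hodd
      hM := hG
      eig := by
        intro c
        have h1 : R (V c) ∈ Submodule.map R (Submodule.span ℂ
            {y | W'.Deg X' 1 y ∧ ∃ a : ℂ, W'.pb F y = W'.scal a y}) :=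
          Submodule.mem_map_of_mem (hT.1 _ (hVgr c))
        rw [hRV, Submodule.map_span] at h1
        refine Submodule.span_mono ?_ h1
        rintro _ ⟨y, ⟨hy, a, ha⟩, rfl⟩
        have hy' : W'.pull F y = a • y := ha
        have h2 := hfr (R y)
        rw [hVR y hy, hy'] at h2
        have h3 := congrArg R h2
        rw [hRV, map_smul, Matrix.smul_mulVec] at h3
        refine ⟨(E.sq q)⁻¹ * a, ?_⟩
        rw [mul_smul, h3, smul_smul, inv_mul_cancel₀ hs, one_smul]
      comm := by
        intro u hu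
        have h1 := QS.opM_gT hodd alg1 hG u
        have h2 : gT M u = u := hfix u hu
        rw [h2] at h1
        conv_lhs => rw [h1]
        rw [Matrix.mul_assoc (M * _), (alg1.G_inv _ M hG).2.2, Matrix.mul_one]
      good := fun u hu => hu.1
      full := by
        intro x hx
        obtain ⟨r, c, f, hf⟩ := hT.2 (fun y => V (x.mulVec (R y)))
          (fun a b => by rw [map_add, Matrix.mulVec_add, map_add])
          (fun a b => by
            show V (x.mulVec (R (a • b))) = a • V (x.mulVec (R b))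
            rw [map_smul, Matrix.mulVec_smul, map_smul])
          (fun y _ => hVgr _)
          (fun y hy => by
            have h1 : W'.pb F y = V ((E.sq q • M).mulVec (R y)) := by
              have h2 := hfr (R y)
              rw [hVR y hy] at h2
              exact h2
            have h2 : W'.pb F (V (x.mulVec (R y))) = V ((E.sq q • M).mulVec (x.mulVec (R y))) :=
              hfr _
            show V (x.mulVec (R (W'.pb F y))) = W'.pb F (V (x.mulVec (R y)))
            rw [h1, h2, hRV, Matrix.mulVec_mulVec, Matrix.mulVec_mulVec, Matrix.mul_smul,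
              Matrix.smul_mul, hx])
        choose v hv hv' using fun i => good_of H S hW' hX' (f i)
        refine ⟨r, c, v, hv, ?_⟩
        have h1 : x = ∑ i, c i • opM (subD (host2 H S hW' hX').D (0, 1)) (v i) := by
          refine Matrix.mulVec_injective (funext fun d => ?_)
          apply hVinj
          have h2 := hf (V d) (hVgr d)
          have h3 : V (x.mulVec (R (V d))) = ∑ i, c i • W'.pull (f i) (V d) := h2
          rw [hRV] at h3
          rw [h3, Matrix.sum_mulVec, map_sum]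
          refine Finset.sum_congr rfl fun i _ => ?_
          rw [Matrix.smul_mulVec, map_smul]
          congr 1
          exact hv' i d
        rw [← opM_sum] at h1
        rw [h1, QS.mten_opM] }

variable (hq : 0 < q)
    (hc : ∀ x ∈ W.gr (H.X 0) 0, ∃ c : ℂ, x = c • (1 : W.coh (H.X 0)))
    (hp : PositiveDivisor W (H.X 0) (H.n 0) (H.ξ 0))
    (hF : W'.pull F ξ' = (((q : ℚ) : ℂ)) • ξ')
    (hfix : ∀ u, At1 (host2 H S hW' hX') 2 u → gT (FM H S hW' hX' F q) u = u)
    (hT : EQ.Tate W' F)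

include H S hW' hX' hq hc hp hF hfix hT in
/-- **Algebraic correspondences act on `H^1` as multiples of endomorphisms.** -/
theorem endo (Lw : PT.Law W' X') (z : W'.coh (X' ⊗ X')) (hz : z ∈ W'.alg (X' ⊗ X') (H.n 0)) :
    K0.En W' X' (cor W' z) := by
  have C := co H S hW' hX' F hq hc hp hF hfix hT
  obtain ⟨vz, hvz, hvz'⟩ := cor_vec1 (host2 H S hW' hX') hz
  obtain ⟨r, d, v, hv, e⟩ := rat C hvz
  choose f hf using fun i => (hv i).2
  have hen : K0.En W' X' (∑ j : Fin r, (d j : ℂ) • (W'.pull (f j)).toLinearMap) := by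
    have h3 : ∀ s : Finset (Fin r),
        K0.En W' X' (∑ j ∈ s, (d j : ℂ) • (W'.pull (f j)).toLinearMap) := by
      intro s
      induction s using Finset.induction_on with
      | empty =>
        rw [Finset.sum_empty]
        exact K0.en_zero Lw
      | insert a s ha ih =>
        rw [Finset.sum_insert ha]
        refine K0.en_add Lw (K0.en_smul hW' hX' Lw _ ⟨1, f a, one_pos, fun y _ => ?_⟩) ih
        rw [Nat.cast_one, one_smul]
        rfl
    exact h3 _
  obtain ⟨N, g, hN, hg⟩ := hen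
  refine ⟨N, g, hN, fun y hy => ?_⟩
  rw [hg y hy]
  congr 1
  have hy' : vec1 (host2 H S hW' hX') (crd1 (host2 H S hW' hX') y) = y :=
    vec1_crd1 (host2 H S hW' hX') hy
  have h1 : cor W' z y = vec1 (host2 H S hW' hX')
      ((opM (subD (host2 H S hW' hX').D (0, 1)) vz).mulVec (crd1 (host2 H S hW' hX') y)) := by
    rw [← hvz']
    exact congrArg (cor W' z) hy'.symm
  have h2 : ∀ j, W'.pull (f j) y = vec1 (host2 H S hW' hX')
      ((opM (subD (host2 H S hW' hX').D (0, 1)) (v j)).mulVec (crd1 (host2 H S hW' hX') y)) := by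
    intro j
    rw [← hf j]
    exact congrArg (W'.pull (f j)) hy'.symm
  rw [h1, e, opM_sum, Matrix.sum_mulVec, map_sum, LinearMap.sum_apply]
  refine Finset.sum_congr rfl fun j _ => ?_
  rw [LinearMap.smul_apply, Matrix.smul_mulVec, map_smul]
  congr 1
  exact h2 j

include H S hW' hX' hq hc hp hF hfix hT in
/-- **The Hodge index theorem** for `X' × X'` -/
theorem index (h0 : ∀ x ∈ W'.gr X' 0, ∃ c : ℂ, x = c • (1 : W'.coh X'))
    (hM : EQ.Effective W' X' (H.n 0) ξ') (hA : AbelianType W' X' (H.n 0)) (Lw : PT.Law W' X') :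
    HodgeCodim W' (X' ⊗ X') (H.n 0 + H.n 0)
      (W'.pull (fst X' X') ξ' + W'.pull (snd X' X') ξ') 1 := by
  have C := co H S hW' hX' F hq hc hp hF hfix hT
  have hpol : IsPol W' (host2 H S hW' hX').ξ (.prod (.leaf 0) (.leaf 0))
      (W'.pull (fst X' X') ξ' + W'.pull (snd X' X') ξ') := by
    have h1 : IsPol W' (host2 H S hW' hX').ξ (.leaf 0) ξ' := by
      have h2 := IsPol.leaf (W := W') (ξ := (host2 H S hW' hX').ξ) 0 1 one_pos
      have h3 : W'.scal (((1 : ℚ) : ℂ)) ((host2 H S hW' hX').ξ 0) = ξ' := by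
        show (((1 : ℚ) : ℂ)) • ξ' = ξ'
        rw [Rat.cast_one, one_smul]
      exact (congrArg (fun y => IsPol W' (host2 H S hW' hX').ξ (.leaf 0) y) h3).mp h2
    exact IsPol.prod _ _ _ _ h1 h1
  have hAb : ∀ a, AbelianType W' ((host2 H S hW' hX').X a) ((host2 H S hW' hX').n a) := by
    intro a
    obtain rfl : a = 0 := Subsingleton.elim _ _
    exact hA
  have hpd : ∀ a, PositiveDivisor W' ((host2 H S hW' hX').X a) ((host2 H S hW' hX').n a)
      ((host2 H S hW' hX').ξ a) := by
    intro a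
    obtain rfl : a = 0 := Subsingleton.elim _ _
    exact S.posd hp
  refine K0.q1 (host2 H S hW' hX') hAb hpd hpol one_pos (K0.posD_of _ fun u hu hu0 => ?_)
  refine pos C (fun u hu => ?_) hu hu0
  exact PT0.semi (host2 H S hW' hX') h0 (S.posd hp) hM hA (fun z hz => by
    obtain ⟨N, f, hN, hf⟩ := endo H S hW' hX' F hq hc hp hF hfix hT Lw z hz
    exact ⟨N, f, hN, fun y hy => hf y hy⟩) hu

end Pool.Agent.Lib.MP_361a6f_ag.FL.TT
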